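import Mathlib

set_option autoImplicit false

/-! The function `exp (i t^2)` and uniformly continuous functions. -/

namespace Pool.Agent.Q196.UG

open MeasureTheory Set Filter Topology

/-- `g(t) = exp (i t^2)`. -/
noncomputable def g (t : ℝ) : ℂ := Complex.exp (Complex.I * (t : ℂ) ^ 2)

theorem g_ne (t : ℝ) : g t ≠ 0 := Complex.exp_ne_zero _

theorem norm_g (t : ℝ) : ‖g t‖ = 1 := by
  unfold g
  rw [mul_comm, ← Complex.ofReal_pow]
  exact Complex.norm_exp_ofReal_mul_I _

theorem norm_e (x : ℝ) : ‖Complex.exp (Complex.I * (x : ℂ))‖ = 1 := by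
  rw [mul_comm]
  exact Complex.norm_exp_ofReal_mul_I _

theorem e_sub_one (x : ℝ) : ‖Complex.exp (Complex.I * (x : ℂ)) - 1‖ ≤ |x| := by
  have := Real.norm_exp_I_mul_ofReal_sub_one_le (x := x)
  simpa using this

theorem g_add (t s : ℝ) : g (t + s) = g t * (Complex.exp (Complex.I * ((2 * t * s : ℝ) : ℂ)) * g s) := by
  unfold g
  rw [← Complex.exp_add, ← Complex.exp_add]
  congr 1
  push_cast
  ring

theorem g_sub_one (s : ℝ) : ‖g s - 1‖ ≤ s ^ 2 := by
  have h := e_sub_one (s ^ 2)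
  rw [abs_of_nonneg (sq_nonneg s)] at h
  unfold g
  rw [← Complex.ofReal_pow]
  exact h

theorem g_sub (t t' : ℝ) : ‖g t' - g t‖ ≤ |t' - t| * |t' + t| := by
  have h1 : g t' - g t = g t * (Complex.exp (Complex.I * ((t' ^ 2 - t ^ 2 : ℝ) : ℂ)) - 1) := by
    unfold g
    rw [mul_sub, ← Complex.exp_add, mul_one]
    congr 2
    push_cast
    ring
  rw [h1, norm_mul, norm_g, one_mul, ← abs_mul]
  refine (e_sub_one _).trans (le_of_eq ?_)
  congr 1
  ring

theorem g_sub_two (t t' : ℝ) : ‖g t' - g t‖ ≤ 2 := by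
  refine (norm_sub_le _ _).trans ?_
  rw [norm_g, norm_g]
  norm_num

/-- The half period. -/
noncomputable def tau (t : ℝ) : ℝ := Real.pi / (2 * max |t| 1)

theorem max_pos (t : ℝ) : 0 < max |t| 1 := lt_max_of_lt_right one_pos

theorem tau_pos (t : ℝ) : 0 < tau t := div_pos Real.pi_pos (mul_pos two_pos (max_pos t))

theorem tau_le (t : ℝ) : tau t ≤ 2 / max |t| 1 := by
  unfold tau
  rw [div_le_div_iff₀ (mul_pos two_pos (max_pos t)) (max_pos t)]
  have := Real.pi_lt_four
  nlinarith [max_pos t]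

theorem tau_le_two (t : ℝ) : tau t ≤ 2 := by
  refine (tau_le t).trans ?_
  rw [div_le_iff₀ (max_pos t)]
  nlinarith [le_max_right |t| 1]

theorem two_t_tau {t : ℝ} (ht : 1 ≤ |t|) : 2 * t * tau t = Real.pi ∨ 2 * t * tau t = -Real.pi := by
  unfold tau
  rw [max_eq_left ht]
  have h0 : |t| ≠ 0 := by positivity
  rcases abs_choice t with h | h
  · left
    have ht0 : t ≠ 0 := by rw [h] at h0; exact h0
    rw [h]
    field_simp
  · right
    have ht0 : t ≠ 0 := by
      rw [h] at h0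
      exact neg_ne_zero.1 h0
    rw [h]
    field_simp

theorem e_tau {t : ℝ} (ht : 1 ≤ |t|) :
    Complex.exp (Complex.I * ((2 * t * tau t : ℝ) : ℂ)) = -1 := by
  rcases two_t_tau ht with h | h
  · rw [h, mul_comm]
    exact Complex.exp_pi_mul_I
  · rw [h]
    push_cast
    rw [mul_neg, Complex.exp_neg, mul_comm, Complex.exp_pi_mul_I]
    norm_num

theorem g_tau {t : ℝ} (ht : 1 ≤ |t|) : g (t + tau t) = -(g t * g (tau t)) := by
  rw [g_add, e_tau ht]
  ring

variable {X : Type*} [NormedAddCommGroup X] [NormedSpace ℂ X] {J : Set ℝ}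

theorem lin (hJ : J.OrdConnected) {u : ℝ → X} (hu : UniformContinuousOn u J) :
    ∃ K : ℝ, 0 ≤ K ∧ ∀ t ∈ J, ∀ t' ∈ J, ‖u t - u t'‖ ≤ K * (|t - t'| + 1) := by
  rw [Metric.uniformContinuousOn_iff] at hu
  obtain ⟨δ, hδ, h⟩ := hu 1 one_pos
  have h1 : ∀ n : ℕ, ∀ t ∈ J, ∀ t' ∈ J, |t - t'| ≤ n * (δ / 2) → ‖u t - u t'‖ ≤ n := by
    intro n
    induction n with
    | zero =>
      intro t _ t' _ htt
      have : t - t' = 0 := by
        rw [← abs_nonpos_iff]; simpa using htt
      rw [sub_eq_zero.1 this]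
      simp
    | succ n ih =>
      intro t ht t' ht' htt
      have hn : (0 : ℝ) < (n : ℝ) + 1 := by positivity
      set c : ℝ := n / (n + 1) with hc
      have hc0 : 0 ≤ c := by positivity
      have hc1 : 1 - c = 1 / (n + 1) := by rw [hc]; field_simp; ring
      have hc2 : 0 ≤ 1 - c := by rw [hc1]; positivity
      have hm : (1 - c) • t + c • t' ∈ J := hJ.convex ht ht' hc2 hc0 (by ring)
      set m := (1 - c) • t + c • t' with hmdef
      push_cast at htt
      have e1 : |t - m| ≤ n * (δ / 2) := by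
        have : t - m = c * (t - t') := by rw [hmdef, smul_eq_mul, smul_eq_mul]; ring
        rw [this, abs_mul, abs_of_nonneg hc0, hc, div_mul_eq_mul_div, div_le_iff₀ hn]
        nlinarith [Nat.cast_nonneg (α := ℝ) n]
      have e2 : |m - t'| < δ := by
        have : m - t' = (1 - c) * (t - t') := by rw [hmdef, smul_eq_mul, smul_eq_mul]; ring
        rw [this, abs_mul, abs_of_nonneg hc2, hc1, one_div, inv_mul_lt_iff₀ hn]
        nlinarith [Nat.cast_nonneg (α := ℝ) n]
      have e3 := ih t ht m hm e1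
      have e4 := h m hm t' ht' (by rw [Real.dist_eq]; exact e2)
      rw [dist_eq_norm] at e4
      have e5 : u t - u t' = (u t - u m) + (u m - u t') := by abel
      rw [e5]
      refine (norm_add_le _ _).trans ?_
      push_cast
      linarith
  refine ⟨max 1 (2 / δ), by positivity, fun t ht t' ht' => ?_⟩
  have h2 := h1 ⌈|t - t'| / (δ / 2)⌉₊ t ht t' ht' (by
    rw [← div_le_iff₀ (by positivity)]
    exact Nat.le_ceil _)
  refine h2.trans ?_
  have h3 : (⌈|t - t'| / (δ / 2)⌉₊ : ℝ) < |t - t'| / (δ / 2) + 1 :=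
    Nat.ceil_lt_add_one (by positivity)
  have h4 : |t - t'| / (δ / 2) = (2 / δ) * |t - t'| := by
    field_simp
  have h5 : (2 / δ) * |t - t'| ≤ max 1 (2 / δ) * |t - t'| :=
    mul_le_mul_of_nonneg_right (le_max_right _ _) (abs_nonneg _)
  have h6 : (1 : ℝ) ≤ max 1 (2 / δ) := le_max_left _ _
  rw [mul_add, mul_one]
  linarith

theorem growth (hJ : J.OrdConnected) {u : ℝ → X} (hu : UniformContinuousOn u J) :
    ∃ G : ℝ, 0 ≤ G ∧ ∀ t ∈ J, ‖u t‖ ≤ G * (|t| + 1) := by
  rcases J.eq_empty_or_nonempty with h | ⟨t0, ht0⟩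
  · exact ⟨0, le_rfl, fun t ht => by rw [h] at ht; exact ht.elim⟩
  obtain ⟨K, hK, h⟩ := lin hJ hu
  refine ⟨K + (‖u t0‖ + K * |t0|), by positivity, fun t ht => ?_⟩
  have h1 := h t ht t0 ht0
  have h2 : u t = (u t - u t0) + u t0 := by abel
  have h3 := norm_add_le (u t - u t0) (u t0)
  rw [← h2] at h3
  have h4 : |t - t0| ≤ |t| + |t0| := abs_sub _ _
  have h5 := abs_nonneg t
  have h6 : K * (|t - t0| + 1) ≤ K * (|t| + |t0| + 1) := mul_le_mul_of_nonneg_left (by linarith) hK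
  have h7 : 0 ≤ (‖u t0‖ + K * |t0|) * |t| := by positivity
  nlinarith [norm_nonneg (u t0)]

end Pool.Agent.Q196.UG
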