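import Mathlib
import Pool.Agent.Q196.UG.Basic

set_option autoImplicit false

/-! Boundedness of the second component. -/

namespace Pool.Agent.Q196.UG

open MeasureTheory Set Filter Topology

variable {X : Type*} [NormedAddCommGroup X] [NormedSpace ℂ X] {J : Set ℝ}

theorem est (hJ : J.OrdConnected) (hJa : ∀ t ∈ J, ∀ s, 0 ≤ s → t + s ∈ J) {u v : ℝ → X}
    (hu : UniformContinuousOn u J) (hv : UniformContinuousOn v J) (c : ℝ) (hc : 0 ≤ c) :
    ∃ C : ℝ, 0 ≤ C ∧ ∀ x ∈ J, ∀ s, 0 ≤ s → s ≤ 2 → ∀ ζ : ℂ, g (x + s) = -(g x * ζ) →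
      ‖ζ - 1‖ * (|x| + 1) ≤ c →
      ‖(u x + g x • v x) - (u (x + s) + g (x + s) • v (x + s)) - (2 * g x) • v x‖ ≤ C := by
  obtain ⟨Ku, hKu, hu1⟩ := lin hJ hu
  obtain ⟨Kv, hKv, hv1⟩ := lin hJ hv
  obtain ⟨G, hG, hv2⟩ := growth hJ hv
  refine ⟨Ku * 3 + (c * (3 * G) + Kv * 3), by positivity, fun x hx s hs0 hs2 ζ hζ hζc => ?_⟩
  have hxs := hJa x hx s hs0
  have e1 : (u x + g x • v x) - (u (x + s) + g (x + s) • v (x + s)) - (2 * g x) • v x =
      (u x - u (x + s)) + g x • ((ζ - 1) • v (x + s) + (v (x + s) - v x)) := by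
    rw [hζ]
    module
  rw [e1]
  have hs : |x - (x + s)| + 1 ≤ 3 := by
    rw [sub_add_cancel_left, abs_neg, abs_of_nonneg hs0]
    linarith
  have hs' : |x + s - x| + 1 ≤ 3 := by
    rw [add_sub_cancel_left, abs_of_nonneg hs0]
    linarith
  have e2 : ‖u x - u (x + s)‖ ≤ Ku * 3 :=
    (hu1 x hx _ hxs).trans (mul_le_mul_of_nonneg_left hs hKu)
  have e3 : ‖v (x + s) - v x‖ ≤ Kv * 3 :=
    (hv1 _ hxs x hx).trans (mul_le_mul_of_nonneg_left hs' hKv)
  have e4 : ‖v (x + s)‖ ≤ G * (3 * (|x| + 1)) := by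
    refine (hv2 _ hxs).trans (mul_le_mul_of_nonneg_left ?_ hG)
    have := abs_add_le x s
    rw [abs_of_nonneg hs0] at this
    linarith [abs_nonneg x]
  have e5 : ‖(ζ - 1) • v (x + s)‖ ≤ c * (3 * G) := by
    rw [norm_smul]
    calc ‖ζ - 1‖ * ‖v (x + s)‖ ≤ ‖ζ - 1‖ * (G * (3 * (|x| + 1))) :=
          mul_le_mul_of_nonneg_left e4 (norm_nonneg _)
      _ = (‖ζ - 1‖ * (|x| + 1)) * (3 * G) := by ring
      _ ≤ c * (3 * G) := mul_le_mul_of_nonneg_right hζc (by positivity)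
  refine (norm_add_le _ _).trans ?_
  rw [norm_smul, norm_g, one_mul]
  have e6 := norm_add_le ((ζ - 1) • v (x + s)) (v (x + s) - v x)
  linarith

theorem v_bdd (hJ : J.OrdConnected) (hJa : ∀ t ∈ J, ∀ s, 0 ≤ s → t + s ∈ J) {u v u' v' w : ℝ → X}
    (hu : UniformContinuousOn u J) (hv : UniformContinuousOn v J)
    (hu' : UniformContinuousOn u' J) (hv' : UniformContinuousOn v' J)
    (hw : ∀ t ∈ J, w t = u t + g t • v t) (hw' : ∀ t ∈ J, w (t + 1) = u' t + g t • v' t) :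
    ∃ M : ℝ, 0 ≤ M ∧ ∀ t ∈ J, ‖v t‖ ≤ M := by
  obtain ⟨C1, hC1, h1⟩ := est hJ hJa hu hv 24 (by norm_num)
  obtain ⟨C2, hC2, h2⟩ := est hJ hJa hu' hv' 24 (by norm_num)
  obtain ⟨Kv, hKv, hv1⟩ := lin hJ hv
  obtain ⟨Kv', hKv', hv1'⟩ := lin hJ hv'
  obtain ⟨G, hG, hv2⟩ := growth hJ hv
  -- comparison
  have h3 : ∀ t ∈ J, 1 ≤ |t| → ‖g t • v' t - g (t + 1) • v (t + 1)‖ ≤ C1 + C2 := by
    intro t ht ht1
    have hτ0 := (tau_pos t).le
    have hτ2 := tau_le_two t
    have ht1J := hJa t ht 1 zero_le_one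
    have hτJ := hJa t ht _ hτ0
    have ht0 : 0 < |t| := by linarith
    have hτ : tau t ≤ 2 / |t| := by
      have := tau_le t
      rwa [max_eq_left ht1] at this
    have hτt : tau t * |t| ≤ 2 := by rwa [le_div_iff₀ ht0] at hτ
    have hg := g_sub_one (tau t)
    have a1 := h2 t ht (tau t) hτ0 hτ2 (g (tau t)) (g_tau ht1) (by
      calc ‖g (tau t) - 1‖ * (|t| + 1) ≤ (tau t) ^ 2 * (|t| + 1) :=
            mul_le_mul_of_nonneg_right hg (by positivity)
        _ ≤ 24 := by nlinarith)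
    have a2 := h1 (t + 1) ht1J (tau t) hτ0 hτ2
      (Complex.exp (Complex.I * ((2 * tau t : ℝ) : ℂ)) * g (tau t)) (by
        rw [g_add (t + 1)]
        have : Complex.exp (Complex.I * ((2 * (t + 1) * tau t : ℝ) : ℂ)) =
            -Complex.exp (Complex.I * ((2 * tau t : ℝ) : ℂ)) := by
          have e : Complex.I * ((2 * (t + 1) * tau t : ℝ) : ℂ) =
              Complex.I * ((2 * t * tau t : ℝ) : ℂ) + Complex.I * ((2 * tau t : ℝ) : ℂ) := by
            push_cast; ring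
          rw [e, Complex.exp_add, e_tau ht1]
          ring
        rw [this]
        ring) (by
        have b1 : ‖Complex.exp (Complex.I * ((2 * tau t : ℝ) : ℂ)) * g (tau t) - 1‖ ≤
            2 * tau t + (tau t) ^ 2 := by
          have e : Complex.exp (Complex.I * ((2 * tau t : ℝ) : ℂ)) * g (tau t) - 1 =
              (Complex.exp (Complex.I * ((2 * tau t : ℝ) : ℂ)) - 1) +
                Complex.exp (Complex.I * ((2 * tau t : ℝ) : ℂ)) * (g (tau t) - 1) := by ring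
          rw [e]
          refine (norm_add_le _ _).trans ?_
          rw [norm_mul, norm_e, one_mul]
          have b2 := e_sub_one (2 * tau t)
          rw [abs_of_nonneg (by positivity)] at b2
          linarith
        have b3 : |t + 1| ≤ |t| + 1 := by
          have := abs_add_le t 1
          rwa [abs_one] at this
        calc ‖Complex.exp (Complex.I * ((2 * tau t : ℝ) : ℂ)) * g (tau t) - 1‖ * (|t + 1| + 1) ≤
            (2 * tau t + (tau t) ^ 2) * (|t| + 1 + 1) := by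
              apply mul_le_mul b1 (by linarith) (by positivity) (by positivity)
          _ ≤ 24 := by nlinarith)
    have e1 : w (t + 1) - w (t + 1 + tau t) = (u (t + 1) + g (t + 1) • v (t + 1)) -
        (u (t + 1 + tau t) + g (t + 1 + tau t) • v (t + 1 + tau t)) := by
      rw [hw _ ht1J, hw _ (hJa _ ht1J _ hτ0)]
    have e2 : w (t + 1) - w (t + 1 + tau t) = (u' t + g t • v' t) -
        (u' (t + tau t) + g (t + tau t) • v' (t + tau t)) := by
      have : t + 1 + tau t = (t + tau t) + 1 := by ring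
      rw [this, hw' _ ht, hw' _ hτJ]
    rw [← e1] at a2
    rw [← e2] at a1
    have e3 : (2 : ℂ) • (g t • v' t - g (t + 1) • v (t + 1)) =
        (w (t + 1) - w (t + 1 + tau t) - (2 * g (t + 1)) • v (t + 1)) -
          (w (t + 1) - w (t + 1 + tau t) - (2 * g t) • v' t) := by module
    have e4 : ‖(2 : ℂ) • (g t • v' t - g (t + 1) • v (t + 1))‖ ≤ C1 + C2 := by
      rw [e3]
      exact (norm_sub_le _ _).trans (add_le_add a2 a1)
    rw [norm_smul] at e4
    have e5 : ‖(2 : ℂ)‖ = 2 := by simp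
    rw [e5] at e4
    nlinarith [norm_nonneg (g t • v' t - g (t + 1) • v (t + 1))]
  have h4 : ∀ t ∈ J, 1 ≤ |t| →
      ‖v' t - (Complex.exp (Complex.I * ((2 * t * 1 : ℝ) : ℂ)) * g 1) • v (t + 1)‖ ≤ C1 + C2 := by
    intro t ht ht1
    have e := h3 t ht ht1
    rw [g_add t 1, mul_smul, ← smul_sub, norm_smul, norm_g, one_mul] at e
    exact e
  have h5 : ∀ t ∈ J, 3 ≤ |t| → ‖v (t + 1)‖ ≤ C1 + C2 + 3 * Kv' + 3 * Kv := by
    intro t ht ht3
    have hpi : 0 ≤ Real.pi / 2 := by positivity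
    have hpi2 : Real.pi / 2 ≤ 2 := by linarith [Real.pi_lt_four]
    have htJ := hJa t ht _ hpi
    have ht1J := hJa t ht 1 zero_le_one
    have a1 := h4 t ht (by linarith)
    have a2 := h4 (t + Real.pi / 2) htJ (by
      have := abs_sub_abs_le_abs_sub t (-(Real.pi / 2))
      rw [abs_neg, abs_of_nonneg hpi, sub_neg_eq_add] at this
      linarith)
    have e0 : Complex.exp (Complex.I * ((2 * (t + Real.pi / 2) * 1 : ℝ) : ℂ)) =
        -Complex.exp (Complex.I * ((2 * t * 1 : ℝ) : ℂ)) := by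
      have e : Complex.I * ((2 * (t + Real.pi / 2) * 1 : ℝ) : ℂ) =
          Complex.I * ((2 * t * 1 : ℝ) : ℂ) + Real.pi * Complex.I := by
        push_cast; ring
      rw [e, Complex.exp_add, Complex.exp_pi_mul_I]
      ring
    rw [e0] at a2
    set ξ : ℂ := Complex.exp (Complex.I * ((2 * t * 1 : ℝ) : ℂ)) * g 1 with hξ
    have hξn : ‖ξ‖ = 1 := by rw [hξ, norm_mul, norm_e, norm_g, one_mul]
    have e1 : (2 : ℂ) • (ξ • v (t + 1)) =
        (v' (t + Real.pi / 2) - (-Complex.exp (Complex.I * ((2 * t * 1 : ℝ) : ℂ)) * g 1) •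
          v (t + Real.pi / 2 + 1)) - (v' t - ξ • v (t + 1)) - (v' (t + Real.pi / 2) - v' t) -
          ξ • (v (t + Real.pi / 2 + 1) - v (t + 1)) := by
      rw [neg_mul, ← hξ]
      module
    have b1 : ‖v' (t + Real.pi / 2) - v' t‖ ≤ Kv' * 3 := by
      refine (hv1' _ htJ t ht).trans (mul_le_mul_of_nonneg_left ?_ hKv')
      rw [add_sub_cancel_left, abs_of_nonneg hpi]
      linarith
    have b2 : ‖v (t + Real.pi / 2 + 1) - v (t + 1)‖ ≤ Kv * 3 := by
      refine (hv1 _ (hJa _ htJ 1 zero_le_one) _ ht1J).trans (mul_le_mul_of_nonneg_left ?_ hKv)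
      have : t + Real.pi / 2 + 1 - (t + 1) = Real.pi / 2 := by ring
      rw [this, abs_of_nonneg hpi]
      linarith
    have e2 : ‖(2 : ℂ) • (ξ • v (t + 1))‖ = 2 * ‖v (t + 1)‖ := by
      rw [norm_smul, norm_smul, hξn, one_mul]
      simp
    have e3 : ‖ξ • (v (t + Real.pi / 2 + 1) - v (t + 1))‖ ≤ Kv * 3 := by
      rw [norm_smul, hξn, one_mul]; exact b2
    have e4 : 2 * ‖v (t + 1)‖ ≤ (C1 + C2) + (C1 + C2) + Kv' * 3 + Kv * 3 := by
      rw [← e2, e1]
      refine (norm_sub_le _ _).trans (add_le_add ?_ e3)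
      refine (norm_sub_le _ _).trans (add_le_add ?_ b1)
      exact (norm_sub_le _ _).trans (add_le_add a2 a1)
    have : 0 ≤ 3 * Kv' := by positivity
    have : 0 ≤ 3 * Kv := by positivity
    linarith
  refine ⟨(C1 + C2 + 3 * Kv' + 3 * Kv) + Kv * 2 + G * 4, by positivity, fun t ht => ?_⟩
  rcases le_or_gt 3 |t| with h | h
  · have a1 := h5 t ht h
    have a2 := hv1 t ht (t + 1) (hJa t ht 1 zero_le_one)
    rw [sub_add_cancel_left, abs_neg, abs_one] at a2
    have a3 : v t = (v t - v (t + 1)) + v (t + 1) := by abel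
    have a4 := norm_add_le (v t - v (t + 1)) (v (t + 1))
    rw [← a3] at a4
    have : 0 ≤ G * 4 := by positivity
    linarith
  · have a1 := hv2 t ht
    have a2 : G * (|t| + 1) ≤ G * 4 := mul_le_mul_of_nonneg_left (by linarith) hG
    have : 0 ≤ (C1 + C2 + 3 * Kv' + 3 * Kv) + Kv * 2 := by positivity
    linarith

end Pool.Agent.Q196.UG
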