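import Mathlib
import Pool.Agent.Q196.UG.Bdd

set_option autoImplicit false

/-! The intrinsic description of `UC + g BUC`. -/

namespace Pool.Agent.Q196.UG

open MeasureTheory Set Filter Topology

variable {X : Type*} [NormedAddCommGroup X] [NormedSpace ℂ X] {J : Set ℝ}

/-- The extracted second component. -/
noncomputable def Vx (w : ℝ → X) (t : ℝ) : X := ((g t)⁻¹ / 2) • (w t - w (t + tau t))

theorem norm_coef (t : ℝ) : ‖(g t)⁻¹ / 2‖ = 1 / 2 := by
  rw [norm_div, norm_inv, norm_g, inv_one]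
  simp

theorem norm_Vx (w : ℝ → X) (t : ℝ) : ‖Vx w t‖ = (1 / 2) * ‖w t - w (t + tau t)‖ := by
  unfold Vx
  rw [norm_smul, norm_coef]

/-- The condition. -/
def Cond (J : Set ℝ) (w : ℝ → X) (ε δ : ℝ) : Prop :=
  ∀ t ∈ J, ∀ t' ∈ J, |t' - t| ≤ δ → ‖(w t' - w t) - (g t' - g t) • Vx w t‖ ≤ ε

theorem cond_of_mem (hJ : J.OrdConnected) (hJa : ∀ t ∈ J, ∀ s, 0 ≤ s → t + s ∈ J)
    {u v w : ℝ → X} (hu : UniformContinuousOn u J) (hv : UniformContinuousOn v J)
    (hw : ∀ t ∈ J, w t = u t + g t • v t) {M : ℝ} (hM0 : 0 ≤ M) (hM : ∀ t ∈ J, ‖v t‖ ≤ M)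
    {ε : ℝ} (hε : 0 < ε) : ∃ δ > 0, Cond J w ε δ := by
  obtain ⟨Ku, hKu, hu1⟩ := lin hJ hu
  rw [Metric.uniformContinuousOn_iff] at hu hv
  obtain ⟨δ1, hδ1, h1⟩ := hu (ε / 8) (by positivity)
  obtain ⟨δ2, hδ2, h2⟩ := hv (ε / 8) (by positivity)
  -- the threshold
  obtain ⟨T, hT⟩ := exists_gt (max (max 1 (4 / min δ1 δ2)) (4 * (8 * M / ε + 1)))
  have hT1 : 1 < T := lt_of_le_of_lt ((le_max_left _ _).trans (le_max_left _ _)) hT
  have hT2 : 4 / min δ1 δ2 < T := lt_of_le_of_lt ((le_max_right _ _).trans (le_max_left _ _)) hT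
  have hT3 : 4 * (8 * M / ε + 1) < T := lt_of_le_of_lt (le_max_right _ _) hT
  have hmin : 0 < min δ1 δ2 := lt_min hδ1 hδ2
  set M2 : ℝ := M + (3 * Ku + 2 * M) with hM2
  have hM20 : 0 ≤ M2 := by positivity
  refine ⟨min (min δ1 δ2 / 2) (min 1 (ε / (4 * (2 * T + 1) * (M2 + 1)))), by positivity, ?_⟩
  intro t ht t' ht' htt
  have htt1 : |t' - t| < δ1 := lt_of_le_of_lt (htt.trans (min_le_left _ _))
    (by have := min_le_left δ1 δ2; linarith)
  have htt2 : |t' - t| < δ2 := lt_of_le_of_lt (htt.trans (min_le_left _ _))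
    (by have := min_le_right δ1 δ2; linarith)
  have hu2 : ‖u t' - u t‖ ≤ ε / 8 := by
    have := h1 t' ht' t ht (by rw [Real.dist_eq]; exact htt1)
    rw [dist_eq_norm] at this
    exact this.le
  have hv2 : ‖v t' - v t‖ ≤ ε / 8 := by
    have := h2 t' ht' t ht (by rw [Real.dist_eq]; exact htt2)
    rw [dist_eq_norm] at this
    exact this.le
  have hτ0 := (tau_pos t).le
  have hτJ := hJa t ht _ hτ0
  have e1 : (w t' - w t) - (g t' - g t) • Vx w t = (u t' - u t) + g t' • (v t' - v t) +
      (g t' - g t) • (v t - Vx w t) := by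
    rw [hw t ht, hw t' ht']
    module
  rw [e1]
  have hlast : ‖(g t' - g t) • (v t - Vx w t)‖ ≤ ε / 2 := by
    rw [norm_smul]
    rcases le_or_gt T |t| with h | h
    · -- tail
      have ht1 : 1 ≤ |t| := by linarith
      have ht0 : 0 < |t| := by linarith
      have hτ : tau t ≤ 2 / |t| := by
        have := tau_le t
        rwa [max_eq_left ht1] at this
      have hτ' : tau t ≤ 2 / T := hτ.trans (div_le_div_of_nonneg_left (by norm_num)
        (by linarith) h)
      have hτs : tau t < min δ1 δ2 := by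
        refine lt_of_le_of_lt hτ' ?_
        rw [div_lt_iff₀ hmin] at hT2
        rw [div_lt_iff₀ (by linarith)]
        nlinarith
      have a1 : ‖u t - u (t + tau t)‖ ≤ ε / 8 := by
        have := h1 t ht _ hτJ (by
          rw [Real.dist_eq, sub_add_cancel_left, abs_neg, abs_of_nonneg hτ0]
          exact lt_of_lt_of_le hτs (min_le_left _ _))
        rw [dist_eq_norm] at this
        exact this.le
      have a2 : ‖v t - v (t + tau t)‖ ≤ ε / 8 := by
        have := h2 t ht _ hτJ (by
          rw [Real.dist_eq, sub_add_cancel_left, abs_neg, abs_of_nonneg hτ0]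
          exact lt_of_lt_of_le hτs (min_le_right _ _))
        rw [dist_eq_norm] at this
        exact this.le
      have a3 : v t - Vx w t = (-((g t)⁻¹ / 2)) • (u t - u (t + tau t)) +
          ((1 / 2 : ℂ) • (v t - v (t + tau t)) +
            ((1 / 2 : ℂ) * (1 - g (tau t))) • v (t + tau t)) := by
        unfold Vx
        rw [hw t ht, hw _ hτJ, g_tau ht1]
        have hg := g_ne t
        have : ((g t)⁻¹ / 2) • (u t + g t • v t - (u (t + tau t) + -(g t * g (tau t)) •
            v (t + tau t))) = ((g t)⁻¹ / 2) • (u t - u (t + tau t)) +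
              (((g t)⁻¹ / 2 * g t) • v t + ((g t)⁻¹ / 2 * g t * g (tau t)) • v (t + tau t)) := by
          module
        rw [this]
        have e : (g t)⁻¹ / 2 * g t = 1 / 2 := by field_simp
        rw [e]
        module
      have a4 : ‖1 - g (tau t)‖ ≤ 4 / T ^ 2 := by
        rw [norm_sub_rev]
        refine (g_sub_one _).trans ?_
        calc (tau t) ^ 2 ≤ (2 / T) ^ 2 := pow_le_pow_left₀ hτ0 hτ' 2
          _ = 4 / T ^ 2 := by rw [div_pow]; norm_num
      have a5 : 4 / T ^ 2 * M ≤ ε / 8 := by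
        have hT0 : 0 < T := by linarith
        have b1 : 4 * (8 * M / ε) < T := by linarith
        have b2 : 8 * M / ε * 4 < T := by linarith
        have b3 : 32 * M < T * ε := by
          have : 8 * M / ε * 4 = 32 * M / ε := by ring
          rw [this, div_lt_iff₀ hε] at b2
          exact b2
        rw [div_mul_eq_mul_div, div_le_iff₀ (by positivity)]
        nlinarith [mul_pos hT0 hε]
      have a6 : ‖v t - Vx w t‖ ≤ ε / 4 := by
        rw [a3]
        refine (norm_add_le _ _).trans ?_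
        have b1 : ‖(-((g t)⁻¹ / 2)) • (u t - u (t + tau t))‖ ≤ (1 / 2) * (ε / 8) := by
          rw [norm_smul, norm_neg, norm_coef]
          exact mul_le_mul_of_nonneg_left a1 (by norm_num)
        have b2 : ‖(1 / 2 : ℂ) • (v t - v (t + tau t))‖ ≤ (1 / 2) * (ε / 8) := by
          rw [norm_smul]
          have : ‖(1 / 2 : ℂ)‖ = 1 / 2 := by simp
          rw [this]
          exact mul_le_mul_of_nonneg_left a2 (by norm_num)
        have b3 : ‖((1 / 2 : ℂ) * (1 - g (tau t))) • v (t + tau t)‖ ≤ (1 / 2) * (ε / 8) := by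
          rw [norm_smul, norm_mul]
          have : ‖(1 / 2 : ℂ)‖ = 1 / 2 := by simp
          rw [this, mul_assoc]
          refine mul_le_mul_of_nonneg_left ?_ (by norm_num)
          exact (mul_le_mul a4 (hM _ hτJ) (norm_nonneg _) (by positivity)).trans a5
        have b4 := norm_add_le ((1 / 2 : ℂ) • (v t - v (t + tau t)))
          (((1 / 2 : ℂ) * (1 - g (tau t))) • v (t + tau t))
        linarith
      calc ‖g t' - g t‖ * ‖v t - Vx w t‖ ≤ 2 * (ε / 4) :=
            mul_le_mul (g_sub_two t t') a6 (norm_nonneg _) (by norm_num)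
        _ = ε / 2 := by ring
    · -- bounded part
      have a1 : ‖v t - Vx w t‖ ≤ M2 := by
        refine (norm_sub_le _ _).trans (add_le_add (hM t ht) ?_)
        rw [norm_Vx, hw t ht, hw _ hτJ]
        have e : u t + g t • v t - (u (t + tau t) + g (t + tau t) • v (t + tau t)) =
            (u t - u (t + tau t)) + (g t • v t - g (t + tau t) • v (t + tau t)) := by abel
        rw [e]
        have b1 : ‖u t - u (t + tau t)‖ ≤ Ku * 3 := by
          refine (hu1 t ht _ hτJ).trans (mul_le_mul_of_nonneg_left ?_ hKu)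
          rw [sub_add_cancel_left, abs_neg, abs_of_nonneg hτ0]
          linarith [tau_le_two t]
        have b2 : ‖g t • v t - g (t + tau t) • v (t + tau t)‖ ≤ M + M := by
          refine (norm_sub_le _ _).trans (add_le_add ?_ ?_)
          · rw [norm_smul, norm_g, one_mul]; exact hM t ht
          · rw [norm_smul, norm_g, one_mul]; exact hM _ hτJ
        have b3 := norm_add_le (u t - u (t + tau t))
          (g t • v t - g (t + tau t) • v (t + tau t))
        have b4 : 0 ≤ Ku * 3 := by positivity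
        linarith [norm_nonneg (u t - u (t + tau t) +
          (g t • v t - g (t + tau t) • v (t + tau t)))]
      have a2 : ‖g t' - g t‖ ≤ |t' - t| * (2 * T + 1) := by
        refine (g_sub t t').trans (mul_le_mul_of_nonneg_left ?_ (abs_nonneg _))
        have h3 : |t' - t| ≤ 1 := htt.trans ((min_le_right _ _).trans (min_le_left _ _))
        have h4 : |t' + t| ≤ |t' - t| + 2 * |t| := by
          have e : t' + t = (t' - t) + 2 * t := by ring
          rw [e]
          refine (abs_add_le _ _).trans ?_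
          rw [abs_mul, abs_two]
        linarith
      have a3 : |t' - t| ≤ ε / (4 * (2 * T + 1) * (M2 + 1)) :=
        htt.trans ((min_le_right _ _).trans (min_le_right _ _))
      calc ‖g t' - g t‖ * ‖v t - Vx w t‖ ≤ (|t' - t| * (2 * T + 1)) * (M2 + 1) :=
            mul_le_mul a2 (by linarith) (norm_nonneg _) (by positivity)
        _ ≤ (ε / (4 * (2 * T + 1) * (M2 + 1)) * (2 * T + 1)) * (M2 + 1) := by
            apply mul_le_mul_of_nonneg_right _ (by positivity)
            exact mul_le_mul_of_nonneg_right a3 (by positivity)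
        _ = ε / 4 := by
            have : (0 : ℝ) < 2 * T + 1 := by linarith
            have : (0 : ℝ) < M2 + 1 := by linarith
            field_simp
        _ ≤ ε / 2 := by linarith
  refine (norm_add_le _ _).trans ?_
  have e2 : ‖g t' • (v t' - v t)‖ ≤ ε / 8 := by rw [norm_smul, norm_g, one_mul]; exact hv2
  have e3 := norm_add_le (u t' - u t) (g t' • (v t' - v t))
  linarith

theorem tau_sub (t t' : ℝ) : |tau t - tau t'| ≤ 2 * |t - t'| := by
  have h1 := max_pos t
  have h2 := max_pos t'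
  have h3 : (1 : ℝ) ≤ max |t| 1 := le_max_right _ _
  have h4 : (1 : ℝ) ≤ max |t'| 1 := le_max_right _ _
  have h5 : |max |t| 1 - max |t'| 1| ≤ |t - t'| :=
    (abs_max_sub_max_le_abs _ _ _).trans (abs_abs_sub_abs_le_abs_sub _ _)
  have h6 : tau t - tau t' = (Real.pi / 2) * ((max |t'| 1 - max |t| 1) /
      (max |t| 1 * max |t'| 1)) := by
    unfold tau
    field_simp
  rw [h6, abs_mul, abs_of_pos (show 0 < Real.pi / 2 by positivity), abs_div,
    abs_of_pos (mul_pos h1 h2)]
  have h7 : |max |t'| 1 - max |t| 1| / (max |t| 1 * max |t'| 1) ≤ |t - t'| := by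
    rw [div_le_iff₀ (mul_pos h1 h2)]
    rw [abs_sub_comm]
    have : (1 : ℝ) ≤ max |t| 1 * max |t'| 1 := by nlinarith
    nlinarith [abs_nonneg (t - t')]
  have h8 : Real.pi / 2 ≤ 2 := by linarith [Real.pi_lt_four]
  exact mul_le_mul h8 h7 (by positivity) (by norm_num)

theorem norm_inv_sub (t t' : ℝ) : ‖(g t)⁻¹ - (g t')⁻¹‖ = ‖g t' - g t‖ := by
  have h1 := g_ne t
  have h2 := g_ne t'
  have : (g t)⁻¹ - (g t')⁻¹ = (g t)⁻¹ * (g t')⁻¹ * (g t' - g t) := by
    field_simp
  rw [this, norm_mul, norm_mul, norm_inv, norm_inv, norm_g, norm_g]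
  simp

theorem mem_of_cond (hJa : ∀ t ∈ J, ∀ s, 0 ≤ s → t + s ∈ J) {W : ℝ → X} {M : ℝ} (hM0 : 0 ≤ M)
    (hM : ∀ t ∈ J, ‖Vx W t‖ ≤ M) (hc : ∀ ε > 0, ∃ δ > 0, Cond J W ε δ) :
    UniformContinuousOn (Vx W) J := by
  rw [Metric.uniformContinuousOn_iff]
  intro ε hε
  obtain ⟨δ0, hδ0, h0⟩ := hc (ε / 8) (by positivity)
  obtain ⟨T, hT⟩ := exists_gt (max (max 1 (4 / δ0)) (4 * (8 * M / ε + 1)))
  have hT1 : 1 < T := lt_of_le_of_lt ((le_max_left _ _).trans (le_max_left _ _)) hT
  have hT2 : 4 / δ0 < T := lt_of_le_of_lt ((le_max_right _ _).trans (le_max_left _ _)) hT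
  have hT3 : 4 * (8 * M / ε + 1) < T := lt_of_le_of_lt (le_max_right _ _) hT
  have hT0 : 0 < T := by linarith
  -- local modulus
  have hloc : ∀ x ∈ J, ∀ y ∈ J, |x| ≤ T + 4 → |y| ≤ T + 4 → |y - x| ≤ δ0 →
      ‖W y - W x‖ ≤ ε / 8 + |y - x| * (2 * (T + 4)) * M := by
    intro x hx y hy hx4 hy4 hxy
    have a1 := h0 x hx y hy hxy
    have a2 : W y - W x = ((W y - W x) - (g y - g x) • Vx W x) + (g y - g x) • Vx W x := by abel
    rw [a2]
    refine (norm_add_le _ _).trans (add_le_add a1 ?_)
    rw [norm_smul]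
    refine mul_le_mul ((g_sub x y).trans (mul_le_mul_of_nonneg_left ?_ (abs_nonneg _))) (hM x hx)
      (norm_nonneg _) (by positivity)
    have := abs_add_le y x
    linarith
  refine ⟨min (min (δ0 / 3) 1) (ε / (64 * (T + 4) * (M + 1))), by positivity, ?_⟩
  intro t ht t' ht' htt
  rw [Real.dist_eq] at htt
  rw [dist_eq_norm]
  have htt1 : |t - t'| < δ0 / 3 := lt_of_lt_of_le htt ((min_le_left _ _).trans (min_le_left _ _))
  have htt2 : |t - t'| < 1 := lt_of_lt_of_le htt ((min_le_left _ _).trans (min_le_right _ _))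
  have htt3 : |t - t'| < ε / (64 * (T + 4) * (M + 1)) := lt_of_lt_of_le htt (min_le_right _ _)
  have hτ0 := (tau_pos t').le
  have hτJ := hJa t' ht' _ hτ0
  have hτt0 := (tau_pos t).le
  have hτtJ := hJa t ht _ hτt0
  rcases le_or_gt T |t'| with h | h
  · have ht1 : 1 ≤ |t'| := by linarith
    have hτ : tau t' ≤ 2 / |t'| := by
      have := tau_le t'
      rwa [max_eq_left ht1] at this
    have hτ' : tau t' ≤ 2 / T := hτ.trans (div_le_div_of_nonneg_left (by norm_num) hT0 h)
    have hτs : tau t' < δ0 / 2 := by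
      refine lt_of_le_of_lt hτ' ?_
      rw [div_lt_iff₀ hδ0] at hT2
      rw [div_lt_iff₀ hT0]
      nlinarith
    have a2 := h0 t ht t' ht' (by rw [abs_sub_comm]; linarith)
    have a1 := h0 t ht _ hτJ (by
      have e : t' + tau t' - t = (t' - t) + tau t' := by ring
      rw [e]
      refine (abs_add_le _ _).trans ?_
      rw [abs_of_nonneg hτ0, abs_sub_comm]
      linarith)
    have a4 : ‖g (tau t') - 1‖ ≤ 4 / T ^ 2 := by
      refine (g_sub_one _).trans ?_
      calc (tau t') ^ 2 ≤ (2 / T) ^ 2 := pow_le_pow_left₀ hτ0 hτ' 2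
        _ = 4 / T ^ 2 := by rw [div_pow]; norm_num
    have a5 : 4 / T ^ 2 * M ≤ ε / 8 := by
      have b2 : 8 * M / ε * 4 < T := by linarith
      have b3 : 32 * M < T * ε := by
        have : 8 * M / ε * 4 = 32 * M / ε := by ring
        rw [this, div_lt_iff₀ hε] at b2
        exact b2
      rw [div_mul_eq_mul_div, div_le_iff₀ (by positivity)]
      nlinarith [mul_pos hT0 hε]
    have e1 : (2 * g t') • Vx W t' = W t' - W (t' + tau t') := by
      unfold Vx
      rw [smul_smul]
      have hg := g_ne t'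
      have : 2 * g t' * ((g t')⁻¹ / 2) = 1 := by field_simp
      rw [this, one_smul]
    have e2 : (2 * g t') • (Vx W t - Vx W t') =
        -((g t' * (g (tau t') - 1)) • Vx W t) -
          (((W t' - W t) - (g t' - g t) • Vx W t) -
            ((W (t' + tau t') - W t) - (g (t' + tau t') - g t) • Vx W t)) := by
      rw [smul_sub, e1, g_tau ht1]
      module
    have e3 : 2 * ‖Vx W t - Vx W t'‖ ≤ ε / 8 + (ε / 8 + ε / 8) := by
      have : ‖(2 * g t') • (Vx W t - Vx W t')‖ = 2 * ‖Vx W t - Vx W t'‖ := by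
        rw [norm_smul, norm_mul, norm_g]
        simp
      rw [← this, e2]
      refine (norm_sub_le _ _).trans (add_le_add ?_ ?_)
      · rw [norm_neg, norm_smul, norm_mul, norm_g, one_mul]
        exact (mul_le_mul a4 (hM t ht) (norm_nonneg _) (by positivity)).trans a5
      · exact (norm_sub_le _ _).trans (add_le_add a2 a1)
    linarith
  · have hta : |t| ≤ T + 1 := by
      have := abs_sub_abs_le_abs_sub t t'
      linarith
    have hb : |t + tau t| ≤ T + 4 := by
      have := abs_add_le t (tau t)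
      rw [abs_of_nonneg hτt0] at this
      linarith [tau_le_two t]
    have hb' : |t' + tau t'| ≤ T + 4 := by
      have := abs_add_le t' (tau t')
      rw [abs_of_nonneg hτ0] at this
      linarith [tau_le_two t']
    have hs : |t + tau t - (t' + tau t')| ≤ 3 * |t - t'| := by
      have e : t + tau t - (t' + tau t') = (t - t') + (tau t - tau t') := by ring
      rw [e]
      refine (abs_add_le _ _).trans ?_
      linarith [tau_sub t t']
    have hbase : |t - t'| * (64 * (T + 4) * (M + 1)) < ε := by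
      rwa [lt_div_iff₀ (by positivity)] at htt3
    have hbase2 : |t - t'| * (T + 4) * M ≤ ε / 64 := by
      have : |t - t'| * (T + 4) * M ≤ |t - t'| * (T + 4) * (M + 1) :=
        mul_le_mul_of_nonneg_left (by linarith) (by positivity)
      linarith
    have a1 := hloc t' ht' t ht (by linarith) (by linarith) (by linarith [abs_nonneg (t - t')])
    have a2 := hloc _ hτJ _ hτtJ hb' hb (by linarith [abs_nonneg (t - t')])
    have a2' : ‖W (t + tau t) - W (t' + tau t')‖ ≤ ε / 8 + 6 * (|t - t'| * (T + 4) * M) := by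
      refine a2.trans (add_le_add_right ?_ _)
      calc |t + tau t - (t' + tau t')| * (2 * (T + 4)) * M ≤
          (3 * |t - t'|) * (2 * (T + 4)) * M := by
            apply mul_le_mul_of_nonneg_right _ hM0
            exact mul_le_mul_of_nonneg_right hs (by positivity)
        _ = 6 * (|t - t'| * (T + 4) * M) := by ring
    have e1 : Vx W t - Vx W t' = ((g t)⁻¹ / 2) • ((W t - W t') -
        (W (t + tau t) - W (t' + tau t'))) +
          (((g t)⁻¹ - (g t')⁻¹) / 2) • (W t' - W (t' + tau t')) := by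
      unfold Vx
      module
    have e2 : ‖W t' - W (t' + tau t')‖ ≤ 2 * M := by
      have := hM t' ht'
      rw [norm_Vx] at this
      linarith
    have e3 : ‖(((g t)⁻¹ - (g t')⁻¹) / 2) • (W t' - W (t' + tau t'))‖ ≤
        2 * (|t - t'| * (T + 4) * M) := by
      rw [norm_smul, norm_div, norm_inv_sub]
      have b1 : ‖g t' - g t‖ ≤ |t - t'| * (2 * (T + 4)) := by
        refine (g_sub t t').trans ?_
        rw [abs_sub_comm]
        refine mul_le_mul_of_nonneg_left ?_ (abs_nonneg _)
        have := abs_add_le t' t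
        linarith
      have b2 : ‖(2 : ℂ)‖ = 2 := by simp
      rw [b2]
      calc ‖g t' - g t‖ / 2 * ‖W t' - W (t' + tau t')‖ ≤
          (|t - t'| * (2 * (T + 4))) / 2 * (2 * M) := by
            apply mul_le_mul _ e2 (norm_nonneg _) (by positivity)
            linarith
        _ = 2 * (|t - t'| * (T + 4) * M) := by ring
    rw [e1]
    refine lt_of_le_of_lt (norm_add_le _ _) ?_
    have e4 : ‖((g t)⁻¹ / 2) • ((W t - W t') - (W (t + tau t) - W (t' + tau t')))‖ ≤
        (1 / 2) * ((ε / 8 + |t - t'| * (2 * (T + 4)) * M) +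
          (ε / 8 + 6 * (|t - t'| * (T + 4) * M))) := by
      rw [norm_smul, norm_coef]
      refine mul_le_mul_of_nonneg_left ?_ (by norm_num)
      exact (norm_sub_le _ _).trans (add_le_add a1 a2')
    have e5 : |t - t'| * (2 * (T + 4)) * M = 2 * (|t - t'| * (T + 4) * M) := by ring
    rw [e5] at e4
    linarith

theorem mem_of_cond' (hJa : ∀ t ∈ J, ∀ s, 0 ≤ s → t + s ∈ J) {W : ℝ → X} {M : ℝ} (hM0 : 0 ≤ M)
    (hM : ∀ t ∈ J, ‖Vx W t‖ ≤ M) (hc : ∀ ε > 0, ∃ δ > 0, Cond J W ε δ) :
    UniformContinuousOn (fun t => W t - g t • Vx W t) J := by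
  have hV := mem_of_cond hJa hM0 hM hc
  rw [Metric.uniformContinuousOn_iff] at hV ⊢
  intro ε hε
  obtain ⟨δ1, hδ1, h1⟩ := hV (ε / 4) (by positivity)
  obtain ⟨δ2, hδ2, h2⟩ := hc (ε / 4) (by positivity)
  refine ⟨min δ1 δ2, lt_min hδ1 hδ2, fun t ht t' ht' htt => ?_⟩
  have a1 := h1 t ht t' ht' (lt_of_lt_of_le htt (min_le_left _ _))
  rw [Real.dist_eq] at htt
  have a2 := h2 t' ht' t ht (htt.le.trans (min_le_right _ _))
  rw [dist_eq_norm] at a1 ⊢
  have e : W t - g t • Vx W t - (W t' - g t' • Vx W t') =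
      ((W t - W t') - (g t - g t') • Vx W t') - g t • (Vx W t - Vx W t') := by module
  rw [e]
  refine lt_of_le_of_lt (norm_sub_le _ _) ?_
  rw [norm_smul, norm_g, one_mul]
  linarith

end Pool.Agent.Q196.UG
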