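import Mathlib
import Pool.Agent.Q196.UG.Cond

set_option autoImplicit false

/-! The difference property. -/

namespace Pool.Agent.Q196.UG

open MeasureTheory Set Filter Topology

variable {X : Type*} [NormedAddCommGroup X] [NormedSpace ℂ X] {J : Set ℝ}

/-- Membership in `UC + g UC` on `J`. -/
def Mem (J : Set ℝ) (w : ℝ → X) : Prop :=
  ∃ u v : ℝ → X, UniformContinuousOn u J ∧ UniformContinuousOn v J ∧
    ∀ t ∈ J, w t = u t + g t • v t

/-- The differences. -/
def D (f : ℝ → X) (a t : ℝ) : X := f (t + a) - f t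

omit [NormedSpace ℂ X] in
theorem D_add (f : ℝ → X) (s b t : ℝ) : D f s t = D f (b + s) t - D f b (t + s) := by
  unfold D
  have : t + (b + s) = t + s + b := by ring
  rw [this]
  abel

omit [NormedSpace ℂ X] in
theorem uc_sub {u v : ℝ → X} (hu : UniformContinuousOn u J) (hv : UniformContinuousOn v J) :
    UniformContinuousOn (fun t => u t - v t) J := by
  rw [Metric.uniformContinuousOn_iff] at *
  intro ε hε
  obtain ⟨δ1, hδ1, h1⟩ := hu (ε / 2) (by positivity)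
  obtain ⟨δ2, hδ2, h2⟩ := hv (ε / 2) (by positivity)
  refine ⟨min δ1 δ2, lt_min hδ1 hδ2, fun t ht t' ht' htt => ?_⟩
  have a1 := h1 t ht t' ht' (lt_of_lt_of_le htt (min_le_left _ _))
  have a2 := h2 t ht t' ht' (lt_of_lt_of_le htt (min_le_right _ _))
  rw [dist_eq_norm] at *
  have e : u t - v t - (u t' - v t') = (u t - u t') - (v t - v t') := by abel
  rw [e]
  refine lt_of_le_of_lt (norm_sub_le _ _) ?_
  linarith

theorem mem_bdd (hJ : J.OrdConnected) (hJa : ∀ t ∈ J, ∀ s, 0 ≤ s → t + s ∈ J) {f : ℝ → X}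
    (hf : ∀ a > 0, Mem J (D f a)) (a : ℝ) (ha : 0 < a) : ∃ u v : ℝ → X,
      UniformContinuousOn u J ∧ UniformContinuousOn v J ∧
        (∀ t ∈ J, D f a t = u t + g t • v t) ∧ ∃ M : ℝ, 0 ≤ M ∧ ∀ t ∈ J, ‖v t‖ ≤ M := by
  obtain ⟨u, v, hu, hv, hw⟩ := hf a ha
  obtain ⟨u1, v1, hu1, hv1, hw1⟩ := hf (1 + a) (by linarith)
  obtain ⟨u2, v2, hu2, hv2, hw2⟩ := hf 1 one_pos
  refine ⟨u, v, hu, hv, hw, v_bdd (u' := fun t => u1 t - u2 t) (v' := fun t => v1 t - v2 t)
    (w := D f a) hJ hJa hu hv (uc_sub hu1 hu2) (uc_sub hv1 hv2) hw fun t ht => ?_⟩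
  have e : D f a (t + 1) = D f (1 + a) t - D f 1 t := by
    unfold D
    have : t + (1 + a) = t + 1 + a := by ring
    rw [this]
    abel
  rw [e, hw1 t ht, hw2 t ht]
  module

theorem D_cond (hJ : J.OrdConnected) (hJa : ∀ t ∈ J, ∀ s, 0 ≤ s → t + s ∈ J) {f : ℝ → X}
    (hf : ∀ a > 0, Mem J (D f a)) (a : ℝ) (ha : 0 < a) {ε : ℝ} (hε : 0 < ε) :
    ∃ δ > 0, Cond J (D f a) ε δ := by
  obtain ⟨u, v, hu, hv, hw, M, hM0, hM⟩ := mem_bdd hJ hJa hf a ha
  exact cond_of_mem hJ hJa hu hv hw hM0 hM hε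

theorem D_osc (hJ : J.OrdConnected) (hJa : ∀ t ∈ J, ∀ s, 0 ≤ s → t + s ∈ J) {f : ℝ → X}
    (hf : ∀ a > 0, Mem J (D f a)) (a : ℝ) (ha : 0 < a) :
    ∃ K : ℝ, 0 ≤ K ∧ ∀ t ∈ J, ∀ t' ∈ J, |t' - t| ≤ 2 → ‖D f a t' - D f a t‖ ≤ K := by
  obtain ⟨u, v, hu, hv, hw, M, hM0, hM⟩ := mem_bdd hJ hJa hf a ha
  obtain ⟨K, hK, h1⟩ := lin hJ hu
  refine ⟨K * 3 + (M + M), by positivity, fun t ht t' ht' htt => ?_⟩
  rw [hw t ht, hw t' ht']
  have e : u t' + g t' • v t' - (u t + g t • v t) = (u t' - u t) + (g t' • v t' - g t • v t) := by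
    abel
  rw [e]
  refine (norm_add_le _ _).trans (add_le_add ?_ ((norm_sub_le _ _).trans (add_le_add ?_ ?_)))
  · exact (h1 t' ht' t ht).trans (mul_le_mul_of_nonneg_left (by linarith) hK)
  · rw [norm_smul, norm_g, one_mul]; exact hM t' ht'
  · rw [norm_smul, norm_g, one_mul]; exact hM t ht

section measure

/-- Local integrability. -/
def LocInt (J : Set ℝ) (f : ℝ → X) : Prop := ∀ a ∈ J, ∀ b ∈ J, IntegrableOn f (Icc a b)

omit [NormedSpace ℂ X] in
theorem int_shift (hJa : ∀ t ∈ J, ∀ s, 0 ≤ s → t + s ∈ J) {f : ℝ → X} (hf : LocInt J f) {t : ℝ}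
    (ht : t ∈ J) {R : ℝ} (hR : 0 ≤ R) : IntegrableOn (fun s => f (t + s)) (Ioc 0 R) := by
  have h1 : IntegrableOn f (Ioc t (t + R)) :=
    (hf t ht _ (hJa t ht R hR)).mono_set Ioc_subset_Icc_self
  have h2 : (fun s => f (t + s)) = f ∘ (fun s => t + s) := rfl
  rw [h2]
  have h3 : Ioc (0 : ℝ) R = (fun s => t + s) ⁻¹' (Ioc t (t + R)) := by
    ext s
    simp
  rw [h3]
  exact (measurePreserving_add_left volume t).integrableOn_comp_preimage
    (measurableEmbedding_addLeft t) |>.2 h1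

omit [NormedSpace ℂ X] in
theorem int_D (hJa : ∀ t ∈ J, ∀ s, 0 ≤ s → t + s ∈ J) {f : ℝ → X} (hf : LocInt J f) {t : ℝ}
    (ht : t ∈ J) {R : ℝ} (hR : 0 ≤ R) : IntegrableOn (fun s => D f s t) (Ioc 0 R) := by
  unfold D
  exact (int_shift hJa hf ht hR).sub (integrableOn_const (by simp))

omit [NormedSpace ℂ X] in
theorem ii_D (hJa : ∀ t ∈ J, ∀ s, 0 ≤ s → t + s ∈ J) {f : ℝ → X} (hf : LocInt J f) {t : ℝ}
    (ht : t ∈ J) {R : ℝ} (hR : 0 ≤ R) : IntervalIntegrable (fun s => D f s t) volume 0 R := by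
  rw [intervalIntegrable_iff_integrableOn_Ioc_of_le hR]
  exact int_D hJa hf ht hR

omit [NormedSpace ℂ X] in
theorem meas_phi (hJa : ∀ t ∈ J, ∀ s, 0 ≤ s → t + s ∈ J) {f : ℝ → X} (hf : LocInt J f)
    {t t' : ℝ} (ht : t ∈ J) (ht' : t' ∈ J) {R : ℝ} (hR : 0 ≤ R) (c : ℝ) :
    AEStronglyMeasurable (fun a => min 1 (‖D f a t' - D f a t‖ / c))
      (volume.restrict (Ioc 0 R)) := by
  have h1 : AEStronglyMeasurable (fun a => D f a t' - D f a t) (volume.restrict (Ioc 0 R)) :=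
    (int_D hJa hf ht' hR).aestronglyMeasurable.sub (int_D hJa hf ht hR).aestronglyMeasurable
  exact (aemeasurable_const.min (h1.norm.aemeasurable.div_const c)).aestronglyMeasurable

omit [NormedSpace ℂ X] in
theorem ii_phi (hJa : ∀ t ∈ J, ∀ s, 0 ≤ s → t + s ∈ J) {f : ℝ → X} (hf : LocInt J f)
    {t t' : ℝ} (ht : t ∈ J) (ht' : t' ∈ J) {R : ℝ} (hR : 0 ≤ R) (c : ℝ) (hc : 0 < c) :
    IntervalIntegrable (fun a => min 1 (‖D f a t' - D f a t‖ / c)) volume 0 R := by
  rw [intervalIntegrable_iff_integrableOn_Ioc_of_le hR]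
  refine Integrable.mono' (g := fun _ => (1 : ℝ)) (integrableOn_const (by simp))
    (meas_phi hJa hf ht ht' hR c) (ae_of_all _ fun a => ?_)
  rw [Real.norm_eq_abs, abs_of_nonneg (by positivity)]
  exact min_le_left _ _

theorem tendsto_phi (hJ : J.OrdConnected) (hJa : ∀ t ∈ J, ∀ s, 0 ≤ s → t + s ∈ J) {f : ℝ → X}
    (hf : ∀ a > 0, Mem J (D f a)) (hi : LocInt J f) {R : ℝ} (hR : 0 ≤ R) (t t' : ℕ → ℝ)
    (ht : ∀ n, t n ∈ J) (ht' : ∀ n, t' n ∈ J) (htt : ∀ n, |t' n - t n| ≤ 2) :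
    Tendsto (fun n : ℕ => ∫ a in (0 : ℝ)..R, min 1 (‖D f a (t' n) - D f a (t n)‖ / (n + 1)))
      atTop (𝓝 0) := by
  have key : Tendsto (fun n : ℕ => ∫ a in (0 : ℝ)..R,
      min 1 (‖D f a (t' n) - D f a (t n)‖ / (n + 1))) atTop (𝓝 (∫ _ in (0 : ℝ)..R, (0 : ℝ))) := by
    refine intervalIntegral.tendsto_integral_filter_of_dominated_convergence (fun _ => (1 : ℝ))
      ?_ ?_ intervalIntegrable_const ?_
    · refine Eventually.of_forall fun n => ?_
      rw [uIoc_of_le hR]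
      exact meas_phi hJa hi (ht n) (ht' n) hR _
    · refine Eventually.of_forall fun n => ae_of_all _ fun a _ => ?_
      rw [Real.norm_eq_abs, abs_of_nonneg (by positivity)]
      exact min_le_left _ _
    · refine ae_of_all _ fun a ha => ?_
      rw [uIoc_of_le hR] at ha
      obtain ⟨K, hK, h1⟩ := D_osc hJ hJa hf a ha.1
      have h2 : Tendsto (fun n : ℕ => K * (1 / ((n : ℝ) + 1))) atTop (𝓝 (K * 0)) :=
        tendsto_one_div_add_atTop_nhds_zero_nat.const_mul K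
      rw [mul_zero] at h2
      refine squeeze_zero (fun n => by positivity) (fun n => ?_) h2
      refine (min_le_right _ _).trans ?_
      rw [mul_one_div]
      exact div_le_div_of_nonneg_right (h1 _ (ht n) _ (ht' n) (htt n)) (by positivity)
  simpa using key

theorem unif_osc (hJ : J.OrdConnected) (hJa : ∀ t ∈ J, ∀ s, 0 ≤ s → t + s ∈ J) {f : ℝ → X}
    (hf : ∀ a > 0, Mem J (D f a)) (hi : LocInt J f) {h : ℝ} (hh : 0 < h) :
    ∃ K : ℝ, 0 ≤ K ∧ ∀ s ∈ Ioc 0 h, ∀ t ∈ J, ∀ t' ∈ J, |t' - t| ≤ 2 →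
      ‖D f s t' - D f s t‖ ≤ K := by
  by_contra hcon
  push Not at hcon
  have hn : ∀ n : ℕ, (0 : ℝ) ≤ (n : ℝ) + 1 := fun n => by positivity
  choose s hs t ht t' ht' htt hbig using fun n : ℕ => hcon ((n : ℝ) + 1) (hn n)
  have hs0 : ∀ n, 0 ≤ s n := fun n => (hs n).1.le
  have h1 := tendsto_phi hJ hJa hf hi (R := 2 * h) (by positivity) t t' ht ht' htt
  have h2 := tendsto_phi hJ hJa hf hi (R := h) hh.le (fun n => t n + s n) (fun n => t' n + s n)
    (fun n => hJa _ (ht n) _ (hs0 n)) (fun n => hJa _ (ht' n) _ (hs0 n))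
    (fun n => by rw [add_sub_add_right_eq_sub]; exact htt n)
  have h3 := h1.add h2
  rw [add_zero] at h3
  have h4 : ∀ n : ℕ, h ≤ (∫ a in (0 : ℝ)..(2 * h), min 1 (‖D f a (t' n) - D f a (t n)‖ / (n + 1))) +
      ∫ a in (0 : ℝ)..h, min 1 (‖D f a (t' n + s n) - D f a (t n + s n)‖ / (n + 1)) := by
    intro n
    have hn1 : (0 : ℝ) < (n : ℝ) + 1 := by positivity
    set φ : ℝ → ℝ := fun a => min 1 (‖D f a (t' n) - D f a (t n)‖ / (n + 1)) with hφ
    set ψ : ℝ → ℝ := fun a => min 1 (‖D f a (t' n + s n) - D f a (t n + s n)‖ / (n + 1)) with hψ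
    have hφi : IntervalIntegrable φ volume 0 (2 * h) :=
      ii_phi hJa hi (ht n) (ht' n) (by positivity) _ hn1
    have hψi : IntervalIntegrable ψ volume 0 h :=
      ii_phi hJa hi (hJa _ (ht n) _ (hs0 n)) (hJa _ (ht' n) _ (hs0 n)) hh.le _ hn1
    have hφ0 : ∀ a, 0 ≤ φ a := fun a => by rw [hφ]; positivity
    have hsub : IntervalIntegrable φ volume (s n) (h + s n) := by
      refine hφi.mono_set ?_
      rw [uIcc_of_le (by linarith), uIcc_of_le (by positivity)]
      exact Icc_subset_Icc (hs0 n) (by linarith [(hs n).2])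
    have hφs : IntervalIntegrable (fun b => φ (b + s n)) volume 0 h := by
      have := hsub.comp_add_right (s n)
      simpa using this
    have e1 : ∫ b in (0 : ℝ)..h, φ (b + s n) = ∫ b in (s n)..(h + s n), φ b := by
      rw [intervalIntegral.integral_comp_add_right, zero_add]
    have e2 : ∫ b in (s n)..(h + s n), φ b ≤ ∫ b in (0 : ℝ)..(2 * h), φ b :=
      intervalIntegral.integral_mono_interval (hs0 n) (by linarith) (by linarith [(hs n).2])
        (ae_of_all _ hφ0) hφi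
    have e3 : h = ∫ _ in (0 : ℝ)..h, (1 : ℝ) := by simp
    have e4 : ∫ _ in (0 : ℝ)..h, (1 : ℝ) ≤ ∫ b in (0 : ℝ)..h, (φ (b + s n) + ψ b) := by
      refine intervalIntegral.integral_mono_on hh.le (by simp) (hφs.add hψi) fun b _ => ?_
      have a1 : ‖D f (s n) (t' n) - D f (s n) (t n)‖ ≤
          ‖D f (b + s n) (t' n) - D f (b + s n) (t n)‖ +
            ‖D f b (t' n + s n) - D f b (t n + s n)‖ := by
        rw [D_add f (s n) b (t' n), D_add f (s n) b (t n)]
        have : D f (b + s n) (t' n) - D f b (t' n + s n) -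
            (D f (b + s n) (t n) - D f b (t n + s n)) =
            (D f (b + s n) (t' n) - D f (b + s n) (t n)) -
              (D f b (t' n + s n) - D f b (t n + s n)) := by abel
        rw [this]
        exact norm_sub_le _ _
      have a2 := (hbig n).trans_le a1
      have a3 : 1 ≤ ‖D f (b + s n) (t' n) - D f (b + s n) (t n)‖ / (n + 1) +
          ‖D f b (t' n + s n) - D f b (t n + s n)‖ / (n + 1) := by
        rw [← add_div, le_div_iff₀ hn1, one_mul]
        exact a2.le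
      rw [hφ, hψ]
      simp only
      rcases le_total 1 (‖D f (b + s n) (t' n) - D f (b + s n) (t n)‖ / (n + 1)) with h5 | h5
      · rw [min_eq_left h5]
        have : 0 ≤ min 1 (‖D f b (t' n + s n) - D f b (t n + s n)‖ / ((n : ℝ) + 1)) := by
          positivity
        linarith
      · rcases le_total 1 (‖D f b (t' n + s n) - D f b (t n + s n)‖ / (n + 1)) with h6 | h6
        · rw [min_eq_left h6]
          have : 0 ≤ min 1 (‖D f (b + s n) (t' n) - D f (b + s n) (t n)‖ / ((n : ℝ) + 1)) := by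
            positivity
          linarith
        · rw [min_eq_right h5, min_eq_right h6]
          exact a3
    rw [intervalIntegral.integral_add hφs hψi, e1] at e4
    rw [← e3] at e4
    linarith
  have h5 := ge_of_tendsto' h3 h4
  linarith

end measure

section main

variable [CompleteSpace X]

/-- The mean difference. -/
noncomputable def W (f : ℝ → X) (h t : ℝ) : X := h⁻¹ • ∫ s in (0 : ℝ)..h, D f s t

omit [CompleteSpace X] in
theorem W_sub (hJa : ∀ t ∈ J, ∀ s, 0 ≤ s → t + s ∈ J) {f : ℝ → X} (hi : LocInt J f)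
    {h : ℝ} (hh : 0 < h) {t t' : ℝ} (ht : t ∈ J) (ht' : t' ∈ J) :
    W f h t' - W f h t = h⁻¹ • ∫ s in (0 : ℝ)..h, (D f s t' - D f s t) := by
  unfold W
  rw [intervalIntegral.integral_sub (ii_D hJa hi ht' hh.le) (ii_D hJa hi ht hh.le), smul_sub]

omit [CompleteSpace X] in
theorem int_E (hJa : ∀ t ∈ J, ∀ s, 0 ≤ s → t + s ∈ J) {f : ℝ → X} (hi : LocInt J f)
    {h : ℝ} (hh : 0 < h) {t t' : ℝ} (ht : t ∈ J) (ht' : t' ∈ J) :
    ∫ s in (0 : ℝ)..h, ((D f s t' - D f s t) - (g t' - g t) • Vx (D f s) t) =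
      h • ((W f h t' - W f h t) - (g t' - g t) • Vx (W f h) t) := by
  have hτJ := hJa t ht _ (tau_pos t).le
  have i1 := ii_D hJa hi ht' hh.le
  have i2 := ii_D hJa hi ht hh.le
  have i3 := ii_D hJa hi hτJ hh.le
  have i4 : IntervalIntegrable (fun s => (g t' - g t) • ((g t)⁻¹ / 2) •
      (D f s t - D f s (t + tau t))) volume 0 h :=
    ((i2.sub i3).smul ((g t)⁻¹ / 2)).smul (g t' - g t)
  unfold Vx
  rw [intervalIntegral.integral_sub (i1.sub i2) i4]
  rw [intervalIntegral.integral_smul, intervalIntegral.integral_smul]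
  rw [W_sub hJa hi hh ht ht']
  have e := W_sub hJa hi hh hτJ ht
  rw [e]
  rw [smul_sub, smul_inv_smul₀ hh.ne']
  congr 1
  rw [smul_comm h (g t' - g t), smul_comm h ((g t)⁻¹ / 2), smul_inv_smul₀ hh.ne']

omit [CompleteSpace X] in
theorem W_cond (hJ : J.OrdConnected) (hJa : ∀ t ∈ J, ∀ s, 0 ≤ s → t + s ∈ J) {f : ℝ → X}
    (hf : ∀ a > 0, Mem J (D f a)) (hi : LocInt J f) {h : ℝ} (hh : 0 < h) {ε : ℝ} (hε : 0 < ε) :
    ∃ δ > 0, Cond J (W f h) ε δ := by
  obtain ⟨K, hK, hosc⟩ := unif_osc hJ hJa hf hi hh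
  by_contra hcon
  push Not at hcon
  have hn : ∀ n : ℕ, (0 : ℝ) < 1 / ((n : ℝ) + 1) := fun n => by positivity
  have hcon' : ∀ n : ℕ, ∃ t ∈ J, ∃ t' ∈ J, |t' - t| ≤ 1 / ((n : ℝ) + 1) ∧
      ε < ‖(W f h t' - W f h t) - (g t' - g t) • Vx (W f h) t‖ := by
    intro n
    have := hcon _ (hn n)
    unfold Cond at this
    push Not at this
    exact this
  choose t ht t' ht' htt hbig using hcon'
  have h1 : Tendsto (fun n : ℕ => ∫ s in (0 : ℝ)..h,
      ((D f s (t' n) - D f s (t n)) - (g (t' n) - g (t n)) • Vx (D f s) (t n))) atTop (𝓝 0) := by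
    have h0 : (0 : X) = ∫ _ in (0 : ℝ)..h, (0 : X) := by simp
    rw [h0]
    refine intervalIntegral.tendsto_integral_filter_of_dominated_convergence
      (fun _ => 2 * K) ?_ ?_ (by simp) ?_
    · refine Eventually.of_forall fun n => ?_
      have hτJ := hJa _ (ht n) _ (tau_pos (t n)).le
      have i1 := ii_D hJa hi (ht' n) hh.le
      have i2 := ii_D hJa hi (ht n) hh.le
      have i3 := ii_D hJa hi hτJ hh.le
      have := (i1.sub i2).sub (((i2.sub i3).smul ((g (t n))⁻¹ / 2)).smul (g (t' n) - g (t n)))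
      rw [uIoc_of_le hh.le]
      exact this.1.aestronglyMeasurable
    · refine Eventually.of_forall fun n => ae_of_all _ fun s hs => ?_
      rw [uIoc_of_le hh.le] at hs
      have hτJ := hJa _ (ht n) _ (tau_pos (t n)).le
      have hn1 : 1 / ((n : ℝ) + 1) ≤ 1 := by
        rw [div_le_one (by positivity)]
        have : (0 : ℝ) ≤ n := Nat.cast_nonneg n
        linarith
      have b1 := hosc s hs _ (ht n) _ (ht' n) (by linarith [htt n])
      have b2 := hosc s hs _ hτJ _ (ht n) (by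
        rw [sub_add_cancel_left, abs_neg, abs_of_nonneg (tau_pos _).le]
        exact tau_le_two _)
      refine (norm_sub_le _ _).trans ?_
      rw [norm_smul, norm_Vx]
      have b3 := g_sub_two (t n) (t' n)
      have b4 : ‖g (t' n) - g (t n)‖ * (1 / 2 * ‖D f s (t n) - D f s (t n + tau (t n))‖) ≤
          2 * (1 / 2 * K) := mul_le_mul b3 (by linarith) (by positivity) (by norm_num)
      linarith
    · refine ae_of_all _ fun s hs => ?_
      rw [uIoc_of_le hh.le] at hs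
      rw [Metric.tendsto_atTop]
      intro η hη
      obtain ⟨δ, hδ, hc⟩ := D_cond hJ hJa hf s hs.1 (half_pos hη)
      obtain ⟨N, hN⟩ := exists_nat_one_div_lt hδ
      refine ⟨N, fun n hnN => ?_⟩
      have b1 : 1 / ((n : ℝ) + 1) ≤ 1 / ((N : ℝ) + 1) :=
        one_div_le_one_div_of_le (by positivity) (by exact_mod_cast Nat.succ_le_succ hnN)
      have b2 := hc _ (ht n) _ (ht' n) ((htt n).trans (b1.trans hN.le))
      rw [dist_zero_right]
      linarith
  have h2 : ∀ n : ℕ, h * ε ≤ ‖∫ s in (0 : ℝ)..h,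
      ((D f s (t' n) - D f s (t n)) - (g (t' n) - g (t n)) • Vx (D f s) (t n))‖ := by
    intro n
    rw [int_E hJa hi hh (ht n) (ht' n), norm_smul, Real.norm_of_nonneg hh.le]
    exact mul_le_mul_of_nonneg_left (hbig n).le hh.le
  have h3 := ge_of_tendsto' h1.norm h2
  rw [norm_zero] at h3
  have := mul_pos hh hε
  linarith

omit [CompleteSpace X] in
theorem W_bdd (hJ : J.OrdConnected) (hJa : ∀ t ∈ J, ∀ s, 0 ≤ s → t + s ∈ J) {f : ℝ → X}
    (hf : ∀ a > 0, Mem J (D f a)) (hi : LocInt J f) {h : ℝ} (hh : 0 < h) :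
    ∃ M : ℝ, 0 ≤ M ∧ ∀ t ∈ J, ‖Vx (W f h) t‖ ≤ M := by
  obtain ⟨K, hK, hosc⟩ := unif_osc hJ hJa hf hi hh
  refine ⟨K, hK, fun t ht => ?_⟩
  have hτJ := hJa t ht _ (tau_pos t).le
  rw [norm_Vx, W_sub hJa hi hh hτJ ht, norm_smul, norm_inv, Real.norm_of_nonneg hh.le]
  have h1 : ‖∫ s in (0 : ℝ)..h, (D f s t - D f s (t + tau t))‖ ≤ K * |h - 0| := by
    refine intervalIntegral.norm_integral_le_of_norm_le_const fun s hs => ?_
    rw [uIoc_of_le hh.le] at hs
    exact hosc s hs _ hτJ _ ht (by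
      rw [sub_add_cancel_left, abs_neg, abs_of_nonneg (tau_pos _).le]
      exact tau_le_two _)
  rw [sub_zero, abs_of_pos hh] at h1
  have h2 : h⁻¹ * ‖∫ s in (0 : ℝ)..h, (D f s t - D f s (t + tau t))‖ ≤ K := by
    rw [inv_mul_le_iff₀ hh]
    linarith
  linarith [norm_nonneg (∫ s in (0 : ℝ)..h, (D f s t - D f s (t + tau t)))]

theorem main (hJ : J.OrdConnected) (hJa : ∀ t ∈ J, ∀ s, 0 ≤ s → t + s ∈ J) {f : ℝ → X}
    (hf : ∀ a > 0, Mem J (D f a)) (hi : LocInt J f) {h : ℝ} (hh : 0 < h) :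
    Mem J (fun t => f t - h⁻¹ • ∫ s in t..(t + h), f s) := by
  obtain ⟨M, hM0, hM⟩ := W_bdd hJ hJa hf hi hh
  have hc : ∀ ε > 0, ∃ δ > 0, Cond J (W f h) ε δ := fun ε hε => W_cond hJ hJa hf hi hh hε
  have h1 := mem_of_cond hJa hM0 hM hc
  have h2 := mem_of_cond' hJa hM0 hM hc
  have hz : UniformContinuousOn (fun _ : ℝ => (0 : X)) J :=
    uniformContinuous_const.uniformContinuousOn
  refine ⟨fun t => 0 - (W f h t - g t • Vx (W f h) t), fun t => 0 - Vx (W f h) t,
    uc_sub hz h2, uc_sub hz h1, fun t ht => ?_⟩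
  have e : W f h t = h⁻¹ • (∫ s in t..(t + h), f s) - f t := by
    unfold W D
    have i1 : IntervalIntegrable (fun s => f (t + s)) volume 0 h := by
      rw [intervalIntegrable_iff_integrableOn_Ioc_of_le hh.le]
      exact int_shift hJa hi ht hh.le
    rw [intervalIntegral.integral_sub i1 (by simp), smul_sub,
      intervalIntegral.integral_comp_add_left, intervalIntegral.integral_const, add_zero,
      smul_smul, sub_zero, inv_mul_cancel₀ hh.ne', one_smul]
  simp only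
  rw [e]
  module

end main

end Pool.Agent.Q196.UG
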